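import Mathlib.Combinatorics.HalesJewett
import Mathlib.Data.ZMod.Basic
import Mathlib.GroupTheory.Perm.ViaEmbedding
import Mathlib.Topology.Homeomorph.Defs
import Mathlib.Topology.Order.IntermediateValue
import Mathlib.Topology.UnitInterval
import Mathlib.Tactic.Group

/-!
# Permutations of the integers and interval homeomorphisms under decomposition

The group `S` of all permutations of `ℤ` and the group `H` of all homeomorphisms of `[0,1]` are
not isomorphic under decomposition.
-/

namespace Pool.Agent.Results.MP_0a04b1_lc.NotIsomorphic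

/-- Subsets `A`, `B` of `E^n` are product-isomorphic: one bijection `f` of `E`, applied in every
coordinate, sends `A` onto `B`. -/
def ProductIso {E : Type} {n : ℕ} (A B : Set (Fin n → E)) : Prop :=
  ∃ f : E ≃ E, (fun x : Fin n → E => fun j => f (x j)) '' A = B

/-- `P` is a partition of `A` into `m` pairwise disjoint pieces. -/
def IsPartitionInto {X : Type} (A : Set X) (m : ℕ) (P : Fin m → Set X) : Prop :=
  (∀ i j, i ≠ j → Disjoint (P i) (P j)) ∧ (⋃ i, P i) = A

/-- Subsets `A`, `B` of `E^n` are product-isomorphic under decomposition: for some finite `m ≥ 1`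
they have partitions into `m` pieces that are product-isomorphic piece by piece. -/
def ProductIsoDecomp {E : Type} {n : ℕ} (A B : Set (Fin n → E)) : Prop :=
  ∃ m : ℕ, 1 ≤ m ∧ ∃ P Q : Fin m → Set (Fin n → E),
    IsPartitionInto A m P ∧ IsPartitionInto B m Q ∧ ∀ i, ProductIso (P i) (Q i)

/-- The multiplication graph of the group `G` carried to the set `E` by the bijection `e`:
all triples `(e x, e y, e (x * y))`. -/
def graphOn (G : Type) [Group G] {E : Type} (e : G ≃ E) : Set (Fin 3 → E) :=
  {v | e.symm (v 0) * e.symm (v 1) = e.symm (v 2)}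

/-- Two groups are isomorphic under decomposition: after carrying both to one set `E` by
bijections, their multiplication graphs are product-isomorphic under decomposition. -/
def GroupIsoDecomp (G K : Type) [Group G] [Group K] : Prop :=
  ∃ (E : Type) (a : G ≃ E) (b : K ≃ E), ProductIsoDecomp (graphOn G a) (graphOn K b)

/-- No homeomorphism of `[0,1]` has order three. -/
theorem no_order_three (h : unitInterval ≃ₜ unitInterval) (h3 : h * h * h = 1) : h = 1 := by
  have key : ∀ x, h (h (h x)) = x := by
    intro x
    have := congrArg (fun g : unitInterval ≃ₜ unitInterval => g x) h3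
    simpa using this
  rcases Continuous.strictMono_of_inj_boundedOrder' h.continuous h.injective with hm | ha
  · ext x
    have hx : h x = x := by
      rcases lt_trichotomy (h x) x with hlt | heq | hgt
      · have h1 := hm hlt
        have h2 := hm h1
        have h4 := key x
        have : h (h (h x)) < x := (h2.trans h1).trans hlt
        rw [h4] at this
        exact absurd this (lt_irrefl _)
      · exact heq
      · have h1 := hm hgt
        have h2 := hm h1
        have h4 := key x
        have : x < h (h (h x)) := hgt.trans (h1.trans h2)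
        rw [h4] at this
        exact absurd this (lt_irrefl _)
    simp [hx]
  · exfalso
    have h01 : (0 : unitInterval) < 1 := by
      exact zero_lt_one
    have h1 := ha h01
    have h2 := ha h1
    have h4 := ha h2
    rw [key, key] at h4
    exact absurd (h01.trans h4) (lt_irrefl _)

/-- The algebraic core: three elements forming a progression in all three coordinates give an
element of order three. -/
theorem core {K : Type} [Group K] (hK : ∀ g : K, g * g * g = 1 → g = 1)
    (P Q R : ZMod 3 → K) (h : ∀ a b, P a * Q b = R (a + b)) : P 0 = P 1 := by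
  have e : ∀ a, (P a)⁻¹ * P (a + 1) = Q 1 * (Q 0)⁻¹ := by
    intro a
    have h1 := h a 1
    have h2 := h (a + 1) 0
    rw [add_zero, ← h1] at h2
    rw [inv_mul_eq_iff_eq_mul, ← mul_assoc, ← h2, mul_inv_cancel_right]
  have e0 := e 0
  have e1 := e 1
  have e2 := e 2
  have h2 : (2 : ZMod 3) + 1 = 0 := by decide
  have h1 : (1 : ZMod 3) + 1 = 2 := by decide
  rw [zero_add] at e0
  rw [h1] at e1
  rw [h2] at e2
  have t : (Q 1 * (Q 0)⁻¹) * (Q 1 * (Q 0)⁻¹) * (Q 1 * (Q 0)⁻¹) = 1 := by
    nth_rewrite 1 [← e0]
    nth_rewrite 1 [← e1]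
    nth_rewrite 1 [← e2]
    group
  have t1 := hK _ t
  rw [t1, inv_mul_eq_one] at e0
  exact e0

/-- **The group of all permutations of the integers and the group of all homeomorphisms of
`[0,1]` are not isomorphic under decomposition.** -/
theorem result : ¬ GroupIsoDecomp (Equiv.Perm ℤ) (unitInterval ≃ₜ unitInterval) := by
  rintro ⟨E, α, β, m, -, P, Q, ⟨-, hP⟩, ⟨-, hQ⟩, hPQ⟩
  obtain ⟨ι, hι, HJ⟩ := Combinatorics.Line.exists_mono_in_high_dimension
    (ZMod 3 × ZMod 3) (Fin m)
  -- an elementary abelian 3-group inside the permutations of the integers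
  obtain ⟨j, hj⟩ : ∃ j : Multiplicative (ι → ZMod 3) → ℕ, Function.Injective j := by
    have : Finite (Multiplicative (ι → ZMod 3)) :=
      inferInstanceAs (Finite (ι → ZMod 3))
    exact exists_injective_nat _
  let em : Multiplicative (ι → ZMod 3) ↪ ℤ :=
    ⟨fun x => (j x : ℤ), fun x y hxy => hj (by simpa using hxy)⟩
  let φ : Multiplicative (ι → ZMod 3) →* Equiv.Perm ℤ :=
    (Equiv.Perm.viaEmbeddingHom em).comp (MulAction.toPermHom _ _)
  have hφ : Function.Injective φ := by
    intro x y hxy
    have h1 := Equiv.Perm.viaEmbeddingHom_injective em hxy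
    have h2 := congrArg (fun g : Equiv.Perm (Multiplicative (ι → ZMod 3)) => g 1) h1
    simpa using h2
  let ψ : (ι → ZMod 3) → Equiv.Perm ℤ := fun x => φ (Multiplicative.ofAdd x)
  have hψ : Function.Injective ψ := fun x y hxy => Multiplicative.ofAdd.injective (hφ hxy)
  have hψm : ∀ x y, ψ x * ψ y = ψ (x + y) := by
    intro x y
    simp only [ψ, ofAdd_add, map_mul]
  -- the triple in the graph
  let tr : (ι → ZMod 3) → (ι → ZMod 3) → (Fin 3 → E) := fun x y =>
    ![α (ψ x), α (ψ y), α (ψ (x + y))]
  have htr : ∀ x y, tr x y ∈ ⋃ i, P i := by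
    intro x y
    rw [hP]
    simp [graphOn, tr, hψm]
  have htr' : ∀ x y, ∃ i, tr x y ∈ P i := by
    intro x y
    simpa using htr x y
  choose c hc using htr'
  obtain ⟨l, i, hl⟩ := HJ (fun v => c (fun k => (v k).1) (fun k => (v k).2))
  obtain ⟨f, hf⟩ := hPQ i
  let X : ZMod 3 → ι → ZMod 3 := fun a k => (l (a, 0) k).1
  let Y : ZMod 3 → ι → ZMod 3 := fun b k => (l (0, b) k).2
  have hX : ∀ a b, (fun k => (l (a, b) k).1) = X a := by
    intro a b
    funext k
    simp only [X]
    cases hk : l.idxFun k with
    | none => simp [hk]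
    | some v => simp [hk]
  have hY : ∀ a b, (fun k => (l (a, b) k).2) = Y b := by
    intro a b
    funext k
    simp only [Y]
    cases hk : l.idxFun k with
    | none => simp [hk]
    | some v => simp [hk]
  have hXY : ∀ a b, X a + Y b = X (a + b) + Y 0 := by
    intro a b
    funext k
    simp only [X, Y, Pi.add_apply]
    cases hk : l.idxFun k with
    | none => simp [hk]
    | some v => simp [hk]
  have hmem : ∀ a b, tr (X a) (Y b) ∈ P i := by
    intro a b
    have h1 := hl (a, b)
    simp only [hX, hY] at h1
    rw [← h1]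
    exact hc _ _
  let F : Equiv.Perm ℤ → (unitInterval ≃ₜ unitInterval) := fun g => β.symm (f (α g))
  have hF : Function.Injective F := fun x y hxy =>
    α.injective (f.injective (β.symm.injective hxy))
  have hmul : ∀ a b, F (ψ (X a)) * F (ψ (Y b)) = F (ψ (X (a + b) + Y 0)) := by
    intro a b
    have h1 : (fun k => f (tr (X a) (Y b) k)) ∈ Q i := by
      rw [← hf]
      exact ⟨_, hmem a b, rfl⟩
    have h2 : (fun k => f (tr (X a) (Y b) k)) ∈ graphOn (unitInterval ≃ₜ unitInterval) β := by
      rw [← hQ]
      exact Set.mem_iUnion.2 ⟨i, h1⟩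
    have h3 : F (ψ (X a)) * F (ψ (Y b)) = F (ψ (X a + Y b)) := by
      simpa [graphOn, tr] using h2
    rw [h3, hXY]
  have hfin := core (fun g hg => no_order_three g hg) (fun a => F (ψ (X a)))
    (fun b => F (ψ (Y b))) (fun d => F (ψ (X d + Y 0))) hmul
  have h01 : X 0 = X 1 := hψ (hF hfin)
  obtain ⟨k, hk⟩ := l.proper
  have h2 := congrFun h01 k
  simp only [X, Combinatorics.Line.apply_none _ _ _ hk] at h2
  exact absurd h2 (by decide)

end Pool.Agent.Results.MP_0a04b1_lc.NotIsomorphic
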